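import Pool.Agent.Lib_helper25.DA.Main

/-!
# Compact submanifolds of non-null 2-type with constant mean curvature

Let `x = c + x1 + x2 : M^n → E^m` (any codimension) be a compact connected immersed submanifold of
non-null 2-type with constant mean curvature, `Δ x1 = l1 x1`, `Δ x2 = l2 x2`. Then either `x(M)`
lies in a round hypersphere centred at `c`, or `l1, l2 > 0`, their ratio is at least `3 + 2√2`,
and one of the roots `μ` of `μ² - (l1 + l2) μ + 2 l1 l2` is an eigenvalue of the Laplacian of `M`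
lying strictly between `l1` and `l2`.
-/

open scoped Manifold ContDiff

namespace Pool.Agent.Results.MP_da464a_gt.CompactRatio

open Pool.Agent.Lib_helper91.CMC2 Pool.Agent.Lib_helper25.DA

theorem result {n m : ℕ} {M : Type*} [TopologicalSpace M] [T2Space M] [CompactSpace M]
    [ConnectedSpace M] [ChartedSpace (E n) M] (hM : IsSmoothManifold n M)
    {x x1 x2 : M → E m} {c : E m} {l1 l2 : ℝ}
    (h : IsCMCNonNullTwoType (n := n) x c x1 x2 l1 l2) :
    (∃ r : ℝ, 0 < r ∧ ∀ p, dist (x p) c = r) ∨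
    (0 < min l1 l2 ∧ (3 + 2 * √2) * min l1 l2 ≤ max l1 l2 ∧
      ∃ (μ : ℝ) (f : M → ℝ), min l1 l2 < μ ∧ μ < max l1 l2 ∧
        μ ^ 2 - (l1 + l2) * μ + 2 * l1 * l2 = 0 ∧ IsEigenfunction (n := n) x f μ) :=
  haveI : IsManifold 𝓘(ℝ, E n) ∞ M := hM
  dichotomy h

end Pool.Agent.Results.MP_da464a_gt.CompactRatio
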