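import Pool.Agent.PLC.Glob

/-!
# Submanifolds of non-null 2-type with constant mean curvature and a planar component

Let `x = c + x1 + x2 : M^n → E^m` (any codimension, no compactness) be a connected immersed
submanifold of non-null 2-type with constant mean curvature, `Δ x1 = l1 x1`, `Δ x2 = l2 x2`.
If `x1(M)` or `x2(M)` lies in a linear subspace of dimension at most two, then `x(M)` lies in a
round hypersphere centred at `c`.
-/

open scoped Manifold ContDiff
open Module

namespace Pool.Agent.Results.MP_da464a_gt.PlanarComponent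

open Pool.Agent.Lib_helper91.CMC2 Pool.Agent.PLC

theorem result {n m : ℕ} {M : Type*} [TopologicalSpace M] [ConnectedSpace M]
    [ChartedSpace (E n) M] (hM : IsSmoothManifold n M)
    {x x1 x2 : M → E m} {c : E m} {l1 l2 : ℝ}
    (h : IsCMCNonNullTwoType (n := n) x c x1 x2 l1 l2)
    (hplanar : finrank ℝ (spanOf x1) ≤ 2 ∨ finrank ℝ (spanOf x2) ≤ 2) :
    ∃ r : ℝ, 0 < r ∧ ∀ p, dist (x p) c = r :=
  haveI : IsManifold 𝓘(ℝ, E n) ∞ M := hM
  planar_spherical' h hplanar

end Pool.Agent.Results.MP_da464a_gt.PlanarComponent
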