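import Pool.Agent.CMX.All

/-!
# Submanifolds of non-null 2-type with constant mean curvature: spans of small total dimension

Let `x = c + x1 + x2 : M^n → E^m` (any codimension, no compactness) be a connected immersed
submanifold of non-null 2-type with constant mean curvature, `Δ x1 = l1 x1`, `Δ x2 = l2 x2`.
If `dim span x1(M) + dim span x2(M) ≤ n + 3` (for `m = n + 2` it suffices that the two spans meet
in dimension at most one), then `x(M)` lies in a round hypersphere centred at `c`.
-/

open scoped Manifold ContDiff
open Module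

namespace Pool.Agent.Results.MP_da464a_gt.SmallSpans

open Pool.Agent.Lib_helper91.CMC2 Pool.Agent.CMX

theorem result {n m : ℕ} {M : Type*} [TopologicalSpace M] [ConnectedSpace M]
    [ChartedSpace (E n) M] (hM : IsSmoothManifold n M)
    {x x1 x2 : M → E m} {c : E m} {l1 l2 : ℝ}
    (h : IsCMCNonNullTwoType (n := n) x c x1 x2 l1 l2)
    (hdim : finrank ℝ (spanOf x1) + finrank ℝ (spanOf x2) ≤ n + 3) :
    ∃ r : ℝ, 0 < r ∧ ∀ p, dist (x p) c = r :=
  haveI : IsManifold 𝓘(ℝ, E n) ∞ M := hM
  global_of_SIX six h hdim

end Pool.Agent.Results.MP_da464a_gt.SmallSpans
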